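import Pool.Agent.helper94.EU.SpecII

/-!
# Row MOD of project eu, part II (MP_ad8ced_nt): the model is small for a suitable offset
-/

set_option autoImplicit false

open Finset

noncomputable section

namespace Pool.Agent.EU

open Pool.Agent.FI Pool.Agent.FJ

open scoped Classical in
/-- a window -/
def MOD_W (N q : ℕ) (c : ℤ × ℤ) (sg : ℤ) (h y : ℝ) : Finset (ℤ × ℤ) :=
  {z ∈ ZD N | (q : ℤ) ∣ z.1 - c.1 ∧ (q : ℤ) ∣ z.2 - c.2 ∧ (N8 z).sign = sg ∧ y < yy z ∧ yy z ≤ y + h}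

/-- the coefficient -/
def MOD_a (β : ℤ × ℤ → ℝ) (f : ℤ → ℂ) (z : ℤ × ℤ) (l : ℤ) : ℂ := f l * β z * ((1 / √(nn z) : ℝ) : ℂ)

/-- the integral over `s` -/
def MOD_J (W : Finset (ℤ × ℤ)) (L : Finset ℤ) (β : ℤ × ℤ → ℝ) (f : ℤ → ℂ) (ρ : ℝ) : ℝ :=
  ∫ s : ℝ, ‖∑ z ∈ W, ∑ l ∈ L, MOD_a β f z l * (if s < uu z l ∧ uu z l ≤ s + ρ then 1 else 0)‖ ^ 2

theorem MOD_J_nonneg (W : Finset (ℤ × ℤ)) (L : Finset ℤ) (β : ℤ × ℤ → ℝ) (f : ℤ → ℂ) (ρ : ℝ) : 0 ≤ MOD_J W L β f ρ :=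
  MeasureTheory.integral_nonneg fun s => by positivity

theorem MOD_J_eq (x N K q : ℕ) (c : ℤ × ℤ) (sg : ℤ) (β : ℤ × ℤ → ℝ) (f : ℤ → ℂ) (b : ℕ) (h ρ y : ℝ) :
    ∫ s : ℝ, ‖PPs x N K q c sg β f b h ρ y s‖ ^ 2 = MOD_J (MOD_W N q c sg h y) (bl x K b) β f ρ := rfl

theorem MOD_ten (hTEN : TEN_stmt) (W W' : Finset (ℤ × ℤ)) (L L' : Finset ℤ) (β : ℤ × ℤ → ℝ) (f₁ f₂ : ℤ → ℂ) (ρ τ : ℝ)
    (hρ : 0 < ρ) :
    ‖∑ p ∈ W ×ˢ W', ∑ l₁ ∈ L, ∑ l₂ ∈ L', MOD_a β f₁ p.1 l₁ * MOD_a β f₂ p.2 l₂ * (tnt ρ (uu p.2 l₂ - uu p.1 l₁ - τ) : ℂ)‖ ≤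
      1 / (2 * ρ) * (MOD_J W L β f₁ ρ + MOD_J W' L' β f₂ ρ) := by
  have h1 := hTEN ((ℤ × ℤ) × ℤ) ((ℤ × ℤ) × ℤ) (W ×ˢ L) (W' ×ˢ L') (fun i => MOD_a β f₁ i.1 i.2) (fun i => MOD_a β f₂ i.1 i.2)
    (fun i => uu i.1 i.2) (fun i => uu i.1 i.2) ρ τ hρ
  simp only [Finset.sum_product] at h1
  have h2 : ∑ p ∈ W ×ˢ W', ∑ l₁ ∈ L, ∑ l₂ ∈ L', MOD_a β f₁ p.1 l₁ * MOD_a β f₂ p.2 l₂ * (tnt ρ (uu p.2 l₂ - uu p.1 l₁ - τ) : ℂ) =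
      ∑ z ∈ W, ∑ l₁ ∈ L, ∑ z' ∈ W', ∑ l₂ ∈ L', MOD_a β f₁ z l₁ * MOD_a β f₂ z' l₂ * (tnt ρ (uu z' l₂ - uu z l₁ - τ) : ℂ) := by
    rw [Finset.sum_product]
    refine Finset.sum_congr rfl fun z _ => ?_
    rw [Finset.sum_comm]
  rw [h2]
  exact h1

/-- the set of the tents -/
def MOD_JJ (x A K : ℕ) (m : ℤ) (b b' : ℕ) : Finset ℤ :=
  Icc (⌈loE (m * hh x A K / 2) (tb x A K b) (tb x A K b') / rr x A K⌉ + 1) (⌊hiE (m * hh x A K / 2) (tb x A K b) (tb x A K b') / rr x A K⌋ - 1)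

theorem MOD_pair (hTEN : TEN_stmt) (x A K : ℕ) (W W' : Finset (ℤ × ℤ)) (β : ℤ × ℤ → ℝ) (f₁ f₂ : ℤ → ℂ) (ω : ℂ)
    (hω : ‖ω‖ ≤ 1) (m : ℤ) (κ c : ℝ) (hκ : √8 / |Real.sinh (m * hh x A K / 2)| ≤ κ) (hρ : 0 < rr x A K)
    (hc : ∀ b < K, ∀ b' < K, (#(MOD_JJ x A K m b b') : ℝ) ≤ c) :
    ‖∑ p ∈ W ×ˢ W', (β p.1 : ℂ) * β p.2 * ω * (kap8 x A K m p.1 p.2 : ℂ) *
      ∑ b ∈ range K, ∑ b' ∈ range K, ∑ l₁ ∈ bl x K b, ∑ l₂ ∈ bl x K b', f₁ l₁ * f₂ l₂ * (KT x A K m b b' (uu p.2 l₂ - uu p.1 l₁) : ℂ)‖ ≤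
      κ * (c * (1 / (2 * rr x A K) * ∑ b ∈ range K, ∑ b' ∈ range K,
        (MOD_J W (bl x K b) β f₁ (rr x A K) + MOD_J W' (bl x K b') β f₂ (rr x A K)))) := by
  obtain ⟨κm, hκm⟩ : ∃ κm : ℝ, κm = √8 / |Real.sinh (m * hh x A K / 2)| := ⟨_, rfl⟩
  have hκm0 : 0 ≤ κm := by rw [hκm]; positivity
  obtain ⟨ρ, hρe⟩ : ∃ ρ : ℝ, ρ = rr x A K := ⟨_, rfl⟩
  have hterm : ∀ p : (ℤ × ℤ) × (ℤ × ℤ), (β p.1 : ℂ) * β p.2 * ω * (kap8 x A K m p.1 p.2 : ℂ) *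
      (∑ b ∈ range K, ∑ b' ∈ range K, ∑ l₁ ∈ bl x K b, ∑ l₂ ∈ bl x K b', f₁ l₁ * f₂ l₂ * (KT x A K m b b' (uu p.2 l₂ - uu p.1 l₁) : ℂ)) =
      ∑ b ∈ range K, ∑ b' ∈ range K, ∑ j ∈ MOD_JJ x A K m b b', (ω * κm) *
        ∑ l₁ ∈ bl x K b, ∑ l₂ ∈ bl x K b', MOD_a β f₁ p.1 l₁ * MOD_a β f₂ p.2 l₂ * (tnt ρ (uu p.2 l₂ - uu p.1 l₁ - j * ρ) : ℂ) := by
    intro p
    have hk : (kap8 x A K m p.1 p.2 : ℂ) = (κm : ℂ) * ((1 / √(nn p.1) : ℝ) : ℂ) * ((1 / √(nn p.2) : ℝ) : ℂ) := by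
      rw [← Complex.ofReal_mul, ← Complex.ofReal_mul]
      congr 1
      rw [hκm]
      unfold kap8
      rw [div_eq_mul_inv, div_eq_mul_inv, one_div, one_div, mul_inv, mul_inv]
      ring
    rw [Finset.mul_sum]
    refine Finset.sum_congr rfl fun b _ => ?_
    rw [Finset.mul_sum]
    refine Finset.sum_congr rfl fun b' _ => ?_
    have h1 : ∑ l₁ ∈ bl x K b, ∑ l₂ ∈ bl x K b', f₁ l₁ * f₂ l₂ * (KT x A K m b b' (uu p.2 l₂ - uu p.1 l₁) : ℂ) =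
        ∑ j ∈ MOD_JJ x A K m b b', ∑ l₁ ∈ bl x K b, ∑ l₂ ∈ bl x K b', f₁ l₁ * f₂ l₂ * (tnt ρ (uu p.2 l₂ - uu p.1 l₁ - j * ρ) : ℂ) := by
      have h2 : ∀ l₁ l₂ : ℤ, f₁ l₁ * f₂ l₂ * (KT x A K m b b' (uu p.2 l₂ - uu p.1 l₁) : ℂ) =
          ∑ j ∈ MOD_JJ x A K m b b', f₁ l₁ * f₂ l₂ * (tnt ρ (uu p.2 l₂ - uu p.1 l₁ - j * ρ) : ℂ) := by
        intro l₁ l₂
        rw [← Finset.mul_sum, ← Complex.ofReal_sum, hρe]
        rfl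
      rw [Finset.sum_comm (s := MOD_JJ x A K m b b')]
      refine Finset.sum_congr rfl fun l₁ _ => ?_
      rw [Finset.sum_comm (s := MOD_JJ x A K m b b')]
      exact Finset.sum_congr rfl fun l₂ _ => h2 l₁ l₂
    rw [h1, Finset.mul_sum]
    refine Finset.sum_congr rfl fun j _ => ?_
    rw [Finset.mul_sum, Finset.mul_sum]
    refine Finset.sum_congr rfl fun l₁ _ => ?_
    rw [Finset.mul_sum, Finset.mul_sum]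
    refine Finset.sum_congr rfl fun l₂ _ => ?_
    rw [hk]
    unfold MOD_a
    ring
  have hsum : ∑ p ∈ W ×ˢ W', (β p.1 : ℂ) * β p.2 * ω * (kap8 x A K m p.1 p.2 : ℂ) *
      (∑ b ∈ range K, ∑ b' ∈ range K, ∑ l₁ ∈ bl x K b, ∑ l₂ ∈ bl x K b', f₁ l₁ * f₂ l₂ * (KT x A K m b b' (uu p.2 l₂ - uu p.1 l₁) : ℂ)) =
      ∑ b ∈ range K, ∑ b' ∈ range K, ∑ j ∈ MOD_JJ x A K m b b', (ω * κm) *
        ∑ p ∈ W ×ˢ W', ∑ l₁ ∈ bl x K b, ∑ l₂ ∈ bl x K b', MOD_a β f₁ p.1 l₁ * MOD_a β f₂ p.2 l₂ * (tnt ρ (uu p.2 l₂ - uu p.1 l₁ - j * ρ) : ℂ) := by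
    rw [Finset.sum_congr rfl fun p _ => hterm p, Finset.sum_comm]
    refine Finset.sum_congr rfl fun b _ => ?_
    rw [Finset.sum_comm]
    refine Finset.sum_congr rfl fun b' _ => ?_
    rw [Finset.sum_comm]
    refine Finset.sum_congr rfl fun j _ => ?_
    rw [Finset.mul_sum]
  rw [hsum]
  have hκ' : ‖ω * (κm : ℂ)‖ ≤ κ := by
    rw [norm_mul, Complex.norm_real, Real.norm_eq_abs, abs_of_nonneg hκm0]
    calc ‖ω‖ * κm ≤ 1 * κm := mul_le_mul_of_nonneg_right hω hκm0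
      _ = κm := one_mul _
      _ ≤ κ := by rw [hκm]; exact hκ
  have hκ0 : 0 ≤ κ := le_trans (norm_nonneg _) hκ'
  calc ‖∑ b ∈ range K, ∑ b' ∈ range K, ∑ j ∈ MOD_JJ x A K m b b', (ω * κm) *
        ∑ p ∈ W ×ˢ W', ∑ l₁ ∈ bl x K b, ∑ l₂ ∈ bl x K b', MOD_a β f₁ p.1 l₁ * MOD_a β f₂ p.2 l₂ * (tnt ρ (uu p.2 l₂ - uu p.1 l₁ - j * ρ) : ℂ)‖
      ≤ ∑ b ∈ range K, ∑ b' ∈ range K, ∑ j ∈ MOD_JJ x A K m b b', κ * (1 / (2 * rr x A K) *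
        (MOD_J W (bl x K b) β f₁ (rr x A K) + MOD_J W' (bl x K b') β f₂ (rr x A K))) := by
        refine (norm_sum_le _ _).trans (Finset.sum_le_sum fun b _ => ?_)
        refine (norm_sum_le _ _).trans (Finset.sum_le_sum fun b' _ => ?_)
        refine (norm_sum_le _ _).trans (Finset.sum_le_sum fun j _ => ?_)
        rw [norm_mul, hρe]
        exact mul_le_mul hκ' (MOD_ten hTEN W W' (bl x K b) (bl x K b') β f₁ f₂ (rr x A K) (j * rr x A K) hρ) (norm_nonneg _) hκ0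
    _ ≤ ∑ b ∈ range K, ∑ b' ∈ range K, c * (κ * (1 / (2 * rr x A K) *
        (MOD_J W (bl x K b) β f₁ (rr x A K) + MOD_J W' (bl x K b') β f₂ (rr x A K)))) := by
        refine Finset.sum_le_sum fun b hb => Finset.sum_le_sum fun b' hb' => ?_
        rw [Finset.sum_const, nsmul_eq_mul]
        refine mul_le_mul_of_nonneg_right (hc b (Finset.mem_range.mp hb) b' (Finset.mem_range.mp hb')) ?_
        have h1 := MOD_J_nonneg W (bl x K b) β f₁ (rr x A K)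
        have h2 := MOD_J_nonneg W' (bl x K b') β f₂ (rr x A K)
        positivity
    _ = _ := by
        simp only [← Finset.mul_sum]
        ring

/-- the number of the tents -/
theorem MOD_JJ_card (x A K : ℕ) (m : ℤ) (C : ℝ) (hC : 0 < C) (hx : 1 ≤ x) (hA : 1 ≤ A) (hAx : A ≤ x) (hK : 1 ≤ K)
    (hLIP : ∀ U : ℝ, 0 < U → U ≤ 1 → ∀ δ δ' τ₁ τ₁' τ₂ τ₂' : ℝ, 0 < δ * δ' → |δ| ≤ 4 * U → |δ'| ≤ 4 * U → |δ| ≤ 3 → |δ'| ≤ 3 →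
      0 ≤ τ₁ → τ₁ ≤ U / 2 → 0 ≤ τ₁' → τ₁' ≤ U / 2 → 0 ≤ τ₂ → τ₂ ≤ U / 2 → 0 ≤ τ₂' → τ₂' ≤ U / 2 →
      |loE δ τ₁ τ₂ - loE δ' τ₁' τ₂'| ≤ C * U * (|δ - δ'| + |τ₁ - τ₁'| + |τ₂ - τ₂'|) ∧
      |hiE δ τ₁ τ₂ - hiE δ' τ₁' τ₂'| ≤ C * U * (|δ - δ'| + |τ₁ - τ₁'| + |τ₂ - τ₂'|) ∧
      |loE δ τ₁ τ₂| ≤ C * U ^ 2 ∧ |hiE δ τ₁ τ₂| ≤ C * U ^ 2) (hTNQ : TNQ_stmt)
    (hm0 : (m * hh x A K / 2 : ℝ) ≠ 0) (hm1 : |(m * hh x A K / 2 : ℝ)| ≤ 4 * (A / x)) (hm2 : |(m * hh x A K / 2 : ℝ)| ≤ 3) (b b' : ℕ) :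
    (#(MOD_JJ x A K m b b') : ℝ) ≤ 2 * C * K := by
  have hxR : (1 : ℝ) ≤ x := by exact_mod_cast hx
  have hAR : (1 : ℝ) ≤ A := by exact_mod_cast hA
  have hAxR : (A : ℝ) ≤ x := by exact_mod_cast hAx
  have hKR : (1 : ℝ) ≤ K := by exact_mod_cast hK
  have hU0 : (0 : ℝ) < A / x := by positivity
  have hU1 : (A : ℝ) / x ≤ 1 := by rw [div_le_one (by positivity)]; exact hAxR
  have htb : ∀ b : ℕ, 0 ≤ tb x A K b ∧ tb x A K b ≤ (A : ℝ) / x / 2 := by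
    intro b
    have h8 : (2 : ℝ) ≤ √8 := by
      rw [Real.le_sqrt' (by norm_num)]
      norm_num
    have hb0 : (0 : ℝ) ≤ (b : ℝ) / K := by positivity
    unfold tb
    constructor
    · positivity
    · rw [div_div]
      refine div_le_div_of_nonneg_left (by positivity) (by positivity) ?_
      nlinarith [mul_nonneg (by linarith : (0 : ℝ) ≤ x) hb0]
  have hρ : 0 < rr x A K := by unfold rr; positivity
  obtain ⟨-, -, h1, h2⟩ := hLIP ((A : ℝ) / x) hU0 hU1 (m * hh x A K / 2) (m * hh x A K / 2) (tb x A K b) (tb x A K b) (tb x A K b') (tb x A K b')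
    (mul_self_pos.mpr hm0) hm1 hm1 hm2 hm2 (htb b).1 (htb b).2 (htb b).1 (htb b).2 (htb b').1 (htb b').2 (htb b').1 (htb b').2
  obtain ⟨-, -, -, h3⟩ := hTNQ (rr x A K) (loE (m * hh x A K / 2) (tb x A K b) (tb x A K b')) (hiE (m * hh x A K / 2) (tb x A K b) (tb x A K b')) hρ
  refine le_trans h3 ?_
  rw [div_le_iff₀ hρ]
  calc |hiE (m * hh x A K / 2) (tb x A K b) (tb x A K b') - loE (m * hh x A K / 2) (tb x A K b) (tb x A K b')| ≤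
      |hiE (m * hh x A K / 2) (tb x A K b) (tb x A K b')| + |loE (m * hh x A K / 2) (tb x A K b) (tb x A K b')| := abs_sub _ _
    _ ≤ C * ((A : ℝ) / x) ^ 2 + C * ((A : ℝ) / x) ^ 2 := add_le_add h2 h1
    _ = 2 * C * K * rr x A K := by
        unfold rr
        field_simp
        ring

/-- the size of the kernel -/
theorem MOD_kap (x A K K₁ : ℕ) (m : ℤ) (hx : 1 ≤ x) (hA : 1 ≤ A) (hK : 1 ≤ K) (hK₁ : 1 ≤ K₁) (hm : (K : ℤ) ≤ K₁ * |m|) :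
    √8 / |Real.sinh (m * hh x A K / 2)| ≤ 6 * K₁ * (x / A) := by
  have hxR : (1 : ℝ) ≤ x := by exact_mod_cast hx
  have hAR : (1 : ℝ) ≤ A := by exact_mod_cast hA
  have hKR : (1 : ℝ) ≤ K := by exact_mod_cast hK
  have hK₁R : (1 : ℝ) ≤ K₁ := by exact_mod_cast hK₁
  have hmR : (K : ℝ) ≤ K₁ * |(m : ℝ)| := by exact_mod_cast hm
  have h8 : √8 ≤ 3 := by
    rw [Real.sqrt_le_left (by norm_num)]
    norm_num
  have hh0 : 0 < hh x A K := by unfold hh; positivity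
  have h1 : (A : ℝ) / (2 * K₁ * x) ≤ |Real.sinh (m * hh x A K / 2)| := by
    have h2 : |(m * hh x A K / 2 : ℝ)| ≤ |Real.sinh (m * hh x A K / 2)| := by
      rw [Real.abs_sinh]
      exact Real.self_le_sinh_iff.mpr (abs_nonneg _)
    refine le_trans ?_ h2
    rw [abs_div, abs_mul, abs_of_pos hh0, abs_of_pos (by norm_num : (0 : ℝ) < 2)]
    unfold hh
    rw [div_le_div_iff₀ (by positivity) (by norm_num)]
    calc (A : ℝ) * 2 = 2 * (A / K) * K := by field_simp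
      _ ≤ 2 * (A / K) * (K₁ * |(m : ℝ)|) := mul_le_mul_of_nonneg_left hmR (by positivity)
      _ = |(m : ℝ)| * (A / (x * K)) * (2 * K₁ * x) := by field_simp
  have h0 : (0 : ℝ) < A / (2 * K₁ * x) := by positivity
  calc √8 / |Real.sinh (m * hh x A K / 2)| ≤ 3 / (A / (2 * K₁ * x)) := div_le_div₀ (by norm_num) h8 h0 h1
    _ = _ := by field_simp; ring

/-- the key of `z` -/
def MOD_key (q : ℕ) (h θ : ℝ) (z : ℤ × ℤ) : (ℤ × (ℕ × ℕ)) × ℤ :=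
  (((N8 z).sign, ((z.1 % q).toNat, (z.2 % q).toNat)), kk h θ z)

theorem MOD_mod (q c : ℕ) (a : ℤ) (hq : 1 ≤ q) (hc : c < q) : (a % q).toNat = c ↔ (q : ℤ) ∣ a - c := by
  have hq0 : (0 : ℤ) < q := by exact_mod_cast hq
  have h1 : 0 ≤ a % q := Int.emod_nonneg _ hq0.ne'
  have h2 : a % q < q := Int.emod_lt_of_pos _ hq0
  have h4 : (c : ℤ) % q = c := Int.emod_eq_of_lt (by positivity) (by exact_mod_cast hc)
  constructor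
  · intro h
    have h3 : a % q = c := by rw [← h]; exact (Int.toNat_of_nonneg h1).symm
    exact Int.dvd_of_emod_eq_zero (by rw [Int.sub_emod, h3, h4, sub_self, Int.zero_emod])
  · intro h
    have h3 : a % q = (c : ℤ) % q := (Int.ModEq.symm (Int.modEq_iff_dvd.mpr h))
    rw [h4] at h3
    rw [h3]
    exact Int.toNat_natCast c

theorem MOD_keyW (hWND : WND_stmt) (N q : ℕ) (h θ : ℝ) (hh : 0 < h) (hq : 1 ≤ q) (κ : (ℤ × (ℕ × ℕ)) × ℤ) (h1 : κ.1.2.1 < q) (h2 : κ.1.2.2 < q)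
    (z : ℤ × ℤ) : z ∈ MOD_W N q ((κ.1.2.1 : ℤ), (κ.1.2.2 : ℤ)) κ.1.1 h (θ + κ.2 * h) ↔ z ∈ ZD N ∧ MOD_key q h θ z = κ := by
  obtain ⟨⟨sg, ⟨c₁, c₂⟩⟩, k⟩ := κ
  unfold MOD_W MOD_key
  rw [Finset.mem_filter, Prod.mk.injEq, Prod.mk.injEq, Prod.mk.injEq, MOD_mod q c₁ z.1 hq h1, MOD_mod q c₂ z.2 hq h2, hWND.1 h θ z hh k]
  tauto

/-- the term of a pair in `MM` -/
def MOD_T (x A K : ℕ) (θ : ℝ) (β : ℤ × ℤ → ℝ) (Ω : ℤ × ℤ → ℤ × ℤ → ℂ) (f₁ f₂ : ℤ → ℂ) (p : (ℤ × ℤ) × (ℤ × ℤ)) : ℂ :=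
  (β p.1 : ℂ) * β p.2 * Ω p.1 p.2 * (kap8 x A K (kk (hh x A K) θ p.1 - kk (hh x A K) θ p.2) p.1 p.2 : ℂ) *
    ∑ b ∈ range K, ∑ b' ∈ range K, ∑ l₁ ∈ bl x K b, ∑ l₂ ∈ bl x K b',
      f₁ l₁ * f₂ l₂ * (KT x A K (kk (hh x A K) θ p.1 - kk (hh x A K) θ p.2) b b' (uu p.2 l₂ - uu p.1 l₁) : ℂ)

/-- the integral for one key -/
def MOD_P (x N A K q : ℕ) (θ : ℝ) (β : ℤ × ℤ → ℝ) (f : ℤ → ℂ) (κ : (ℤ × (ℕ × ℕ)) × ℤ) (b : ℕ) : ℝ :=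
  MOD_J (MOD_W N q ((κ.1.2.1 : ℤ), (κ.1.2.2 : ℤ)) κ.1.1 (hh x A K) (θ + κ.2 * hh x A K)) (bl x K b) β f (rr x A K)

theorem MOD_fiber (hTEN : TEN_stmt) (hTNQ : TNQ_stmt) (hWND : WND_stmt) (hKRN : KRN_stmt) (C : ℝ) (hC : 0 < C)
    (hLIP : ∀ U : ℝ, 0 < U → U ≤ 1 → ∀ δ δ' τ₁ τ₁' τ₂ τ₂' : ℝ, 0 < δ * δ' → |δ| ≤ 4 * U → |δ'| ≤ 4 * U → |δ| ≤ 3 → |δ'| ≤ 3 →
      0 ≤ τ₁ → τ₁ ≤ U / 2 → 0 ≤ τ₁' → τ₁' ≤ U / 2 → 0 ≤ τ₂ → τ₂ ≤ U / 2 → 0 ≤ τ₂' → τ₂' ≤ U / 2 →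
      |loE δ τ₁ τ₂ - loE δ' τ₁' τ₂'| ≤ C * U * (|δ - δ'| + |τ₁ - τ₁'| + |τ₂ - τ₂'|) ∧
      |hiE δ τ₁ τ₂ - hiE δ' τ₁' τ₂'| ≤ C * U * (|δ - δ'| + |τ₁ - τ₁'| + |τ₂ - τ₂'|) ∧
      |loE δ τ₁ τ₂| ≤ C * U ^ 2 ∧ |hiE δ τ₁ τ₂| ≤ C * U ^ 2)
    (x N A K K₁ q : ℕ) (θ : ℝ) (β : ℤ × ℤ → ℝ) (Ω : ℤ × ℤ → ℤ × ℤ → ℂ) (f₁ f₂ : ℤ → ℂ)
    (hx : 1 ≤ x) (hN : 1 ≤ N) (hA : 1 ≤ A) (hAx : A ≤ x) (hK₁ : 1 ≤ K₁) (hK : 2 * K₁ ≤ K) (hq : 1 ≤ q) (hΩ : ∀ z z', ‖Ω z z'‖ ≤ 1)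
    (hper : ∀ z ∈ ZD N, ∀ z' ∈ ZD N, ∀ w ∈ ZD N, ∀ w' ∈ ZD N, dl z z' ≠ 0 → dl w w' ≠ 0 → (q : ℤ) ∣ z.1 - w.1 → (q : ℤ) ∣ z.2 - w.2 →
      (q : ℤ) ∣ z'.1 - w'.1 → (q : ℤ) ∣ z'.2 - w'.2 → Ω z z' = Ω w w')
    (κ κ' : (ℤ × (ℕ × ℕ)) × ℤ) (h1 : κ.1.2.1 < q) (h2 : κ.1.2.2 < q) (h1' : κ'.1.2.1 < q) (h2' : κ'.1.2.2 < q) :
    ‖∑ p ∈ PW x N A K K₁ θ with (MOD_key q (hh x A K) θ p.1, MOD_key q (hh x A K) θ p.2) = (κ, κ'), MOD_T x A K θ β Ω f₁ f₂ p‖ ≤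
      if |κ.2 - κ'.2| ≤ 7 * K then 6 * K₁ * (x / A) * (2 * C * K * (1 / (2 * rr x A K) * ∑ b ∈ range K, ∑ b' ∈ range K,
        (MOD_P x N A K q θ β f₁ κ b + MOD_P x N A K q θ β f₂ κ' b'))) else 0 := by
  have hxR : (1 : ℝ) ≤ x := by exact_mod_cast hx
  have hAR : (1 : ℝ) ≤ A := by exact_mod_cast hA
  have hK0 : 1 ≤ K := by omega
  have hKR : (1 : ℝ) ≤ K := by exact_mod_cast hK0
  have hh0 : 0 < hh x A K := by unfold hh; positivity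
  have hρ0 : 0 < rr x A K := by unfold rr; positivity
  by_cases hne : (Finset.filter (fun p => (MOD_key q (hh x A K) θ p.1, MOD_key q (hh x A K) θ p.2) = (κ, κ')) (PW x N A K K₁ θ)).Nonempty
  · obtain ⟨p₀, hp₀⟩ := hne
    rw [Finset.mem_filter] at hp₀
    obtain ⟨hp₀W, hkey⟩ := hp₀
    obtain ⟨hk1, hk2⟩ := Prod.mk.inj hkey
    have hp₀W' := hp₀W
    unfold PW at hp₀W'
    rw [Finset.mem_filter, Finset.mem_product] at hp₀W'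
    obtain ⟨⟨hz, hz'⟩, hsg, hKm, hm7⟩ := hp₀W'
    have hs1 : (N8 p₀.1).sign = κ.1.1 := by rw [← hk1]; rfl
    have hs2 : (N8 p₀.2).sign = κ'.1.1 := by rw [← hk2]; rfl
    have hkk1 : kk (hh x A K) θ p₀.1 = κ.2 := by rw [← hk1]; rfl
    have hkk2 : kk (hh x A K) θ p₀.2 = κ'.2 := by rw [← hk2]; rfl
    rw [hs1, hs2] at hsg
    rw [hkk1, hkk2] at hKm hm7
    have hfib : (Finset.filter (fun p => (MOD_key q (hh x A K) θ p.1, MOD_key q (hh x A K) θ p.2) = (κ, κ')) (PW x N A K K₁ θ)) =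
        MOD_W N q ((κ.1.2.1 : ℤ), (κ.1.2.2 : ℤ)) κ.1.1 (hh x A K) (θ + κ.2 * hh x A K) ×ˢ
        MOD_W N q ((κ'.1.2.1 : ℤ), (κ'.1.2.2 : ℤ)) κ'.1.1 (hh x A K) (θ + κ'.2 * hh x A K) := by
      ext p
      rw [Finset.mem_filter, Finset.mem_product, MOD_keyW hWND N q (hh x A K) θ hh0 hq κ h1 h2, MOD_keyW hWND N q (hh x A K) θ hh0 hq κ' h1' h2']
      constructor
      · rintro ⟨hpW, hpk⟩
        obtain ⟨e1, e2⟩ := Prod.mk.inj hpk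
        unfold PW at hpW
        rw [Finset.mem_filter, Finset.mem_product] at hpW
        exact ⟨⟨hpW.1.1, e1⟩, ⟨hpW.1.2, e2⟩⟩
      · rintro ⟨⟨g1, g2⟩, g3, g4⟩
        refine ⟨?_, Prod.ext g2 g4⟩
        have e1 : (N8 p.1).sign = κ.1.1 := by rw [← g2]; rfl
        have e2 : (N8 p.2).sign = κ'.1.1 := by rw [← g4]; rfl
        have e3 : kk (hh x A K) θ p.1 = κ.2 := by rw [← g2]; rfl
        have e4 : kk (hh x A K) θ p.2 = κ'.2 := by rw [← g4]; rfl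
        unfold PW
        rw [Finset.mem_filter, Finset.mem_product, e1, e2, e3, e4]
        exact ⟨⟨g1, g3⟩, hsg, hKm, hm7⟩
    obtain ⟨C', hC', hKRN'⟩ := hKRN
    have hK3 := hKRN' x N A K K₁ hx hN hA hAx hK₁ hK θ p₀ hp₀W
    obtain ⟨hdl0, -, -, -, hm1, hm2, -, -, -, -⟩ := hK3
    rw [hkk1, hkk2] at hm1 hm2
    have hterm : ∀ p ∈ (Finset.filter (fun p => (MOD_key q (hh x A K) θ p.1, MOD_key q (hh x A K) θ p.2) = (κ, κ')) (PW x N A K K₁ θ)),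
        MOD_T x A K θ β Ω f₁ f₂ p = (β p.1 : ℂ) * β p.2 * Ω p₀.1 p₀.2 * (kap8 x A K (κ.2 - κ'.2) p.1 p.2 : ℂ) *
        ∑ b ∈ range K, ∑ b' ∈ range K, ∑ l₁ ∈ bl x K b, ∑ l₂ ∈ bl x K b',
          f₁ l₁ * f₂ l₂ * (KT x A K (κ.2 - κ'.2) b b' (uu p.2 l₂ - uu p.1 l₁) : ℂ) := by
      intro p hp
      rw [Finset.mem_filter] at hp
      obtain ⟨hpW, hpk⟩ := hp
      obtain ⟨g2, g4⟩ := Prod.mk.inj hpk
      have e3 : kk (hh x A K) θ p.1 = κ.2 := by rw [← g2]; rfl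
      have e4 : kk (hh x A K) θ p.2 = κ'.2 := by rw [← g4]; rfl
      have hdl := (hKRN' x N A K K₁ hx hN hA hAx hK₁ hK θ p hpW).1
      unfold PW at hpW
      rw [Finset.mem_filter, Finset.mem_product] at hpW
      have hd : ∀ (c : ℕ) (a a' : ℤ), c < q → (a % q).toNat = c → (a' % q).toNat = c → (q : ℤ) ∣ a - a' := by
        intro c a a' hc ha ha'
        rw [ MOD_mod q c a hq hc] at ha
        rw [ MOD_mod q c a' hq hc] at ha'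
        have h5 := dvd_sub ha ha'
        have h6 : a - (c : ℤ) - (a' - c) = a - a' := by ring
        rwa [h6] at h5
      have c1 : (p.1.1 % q).toNat = κ.1.2.1 := by rw [← g2]; rfl
      have c2 : (p.1.2 % q).toNat = κ.1.2.2 := by rw [← g2]; rfl
      have c3 : (p.2.1 % q).toNat = κ'.1.2.1 := by rw [← g4]; rfl
      have c4 : (p.2.2 % q).toNat = κ'.1.2.2 := by rw [← g4]; rfl
      have d1 : (p₀.1.1 % q).toNat = κ.1.2.1 := by rw [← hk1]; rfl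
      have d2 : (p₀.1.2 % q).toNat = κ.1.2.2 := by rw [← hk1]; rfl
      have d3 : (p₀.2.1 % q).toNat = κ'.1.2.1 := by rw [← hk2]; rfl
      have d4 : (p₀.2.2 % q).toNat = κ'.1.2.2 := by rw [← hk2]; rfl
      have hΩe : Ω p.1 p.2 = Ω p₀.1 p₀.2 :=
        hper p.1 hpW.1.1 p.2 hpW.1.2 p₀.1 hz p₀.2 hz' hdl hdl0 (hd _ _ _ h1 c1 d1) (hd _ _ _ h2 c2 d2) (hd _ _ _ h1' c3 d3) (hd _ _ _ h2' c4 d4)
      unfold MOD_T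
      rw [e3, e4, hΩe]
    rw [Finset.sum_congr rfl hterm, hfib, if_pos hm7]
    have hm0 : (((κ.2 - κ'.2 : ℤ) : ℝ) * hh x A K / 2 : ℝ) ≠ 0 := by
      have h5 : κ.2 - κ'.2 ≠ 0 := by
        intro h6
        rw [h6, abs_zero, mul_zero] at hKm
        omega
      have h6 : ((κ.2 - κ'.2 : ℤ) : ℝ) ≠ 0 := by exact_mod_cast h5
      exact div_ne_zero (mul_ne_zero h6 hh0.ne') (by norm_num)
    exact MOD_pair hTEN x A K _ _ β f₁ f₂ (Ω p₀.1 p₀.2) (hΩ _ _) (κ.2 - κ'.2) (6 * K₁ * (x / A)) (2 * C * K)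
      (MOD_kap x A K K₁ (κ.2 - κ'.2) hx hA hK0 hK₁ hKm) hρ0
      (fun b _ b' _ => MOD_JJ_card x A K (κ.2 - κ'.2) C hC hx hA hAx hK0 hLIP hTNQ hm0 hm1 hm2 b b')
  · rw [Finset.not_nonempty_iff_eq_empty.mp hne, Finset.sum_empty, norm_zero]
    split_ifs
    · have h5 : ∀ b b' : ℕ, 0 ≤ MOD_P x N A K q θ β f₁ κ b + MOD_P x N A K q θ β f₂ κ' b' := fun b b' =>
        add_nonneg (MOD_J_nonneg _ _ _ _ _) (MOD_J_nonneg _ _ _ _ _)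
      have h6 : 0 ≤ ∑ b ∈ range K, ∑ b' ∈ range K, (MOD_P x N A K q θ β f₁ κ b + MOD_P x N A K q θ β f₂ κ' b') :=
        Finset.sum_nonneg fun b _ => Finset.sum_nonneg fun b' _ => h5 b b'
      positivity
    · exact le_rfl

/-- the keys -/
def MOD_K (q : ℕ) (n : ℤ) : Finset ((ℤ × (ℕ × ℕ)) × ℤ) :=
  ((({-1, 0, 1} : Finset ℤ) ×ˢ (range q ×ˢ range q)) ×ˢ Icc (-n) n)

theorem MOD_count (q K : ℕ) (n k : ℤ) (hK : 1 ≤ K) :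
    (#{κ' ∈ MOD_K q n | |k - κ'.2| ≤ 7 * K} : ℝ) ≤ 45 * (q : ℝ) ^ 2 * K := by
  have h1 : {κ' ∈ MOD_K q n | |k - κ'.2| ≤ 7 * K} ⊆
      ((({-1, 0, 1} : Finset ℤ) ×ˢ (range q ×ˢ range q)) ×ˢ Icc (k - 7 * K) (k + 7 * K)) := by
    intro κ' h
    unfold MOD_K at h
    rw [Finset.mem_filter, Finset.mem_product] at h
    rw [Finset.mem_product, Finset.mem_Icc]
    have h2 := abs_le.mp h.2
    exact ⟨h.1.1, by linarith [h2.2], by linarith [h2.1]⟩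
  have h2 := Finset.card_le_card h1
  rw [Finset.card_product, Finset.card_product, Finset.card_product, Finset.card_range, Int.card_Icc] at h2
  have h3 : (k + 7 * (K : ℤ) + 1 - (k - 7 * K)).toNat = 14 * K + 1 := by
    have : k + 7 * (K : ℤ) + 1 - (k - 7 * K) = ((14 * K + 1 : ℕ) : ℤ) := by push_cast; ring
    rw [this, Int.toNat_natCast]
  have h4 : #({-1, 0, 1} : Finset ℤ) = 3 := by decide
  rw [h3, h4] at h2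
  have h5 : (#{κ' ∈ MOD_K q n | |k - κ'.2| ≤ 7 * K} : ℝ) ≤ 3 * (q * q) * (14 * K + 1) := by exact_mod_cast h2
  have hKR : (1 : ℝ) ≤ K := by exact_mod_cast hK
  calc (#{κ' ∈ MOD_K q n | |k - κ'.2| ≤ 7 * K} : ℝ) ≤ 3 * (q * q) * (14 * K + 1) := h5
    _ ≤ 3 * (q * q) * (15 * K) := mul_le_mul_of_nonneg_left (by linarith) (by positivity)
    _ = _ := by ring

theorem MOD_double (q K : ℕ) (n : ℤ) (hK : 1 ≤ K) (g : ℝ) (hg : 0 ≤ g) (P Q : (ℤ × (ℕ × ℕ)) × ℤ → ℝ) (hP : ∀ κ, 0 ≤ P κ) (hQ : ∀ κ, 0 ≤ Q κ) :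
    ∑ κ ∈ MOD_K q n, ∑ κ' ∈ MOD_K q n, (if |κ.2 - κ'.2| ≤ 7 * K then g * (P κ + Q κ') else 0) ≤
      g * (45 * (q : ℝ) ^ 2 * K) * (∑ κ ∈ MOD_K q n, (P κ + Q κ)) := by
  have h1 : ∀ κ κ' : (ℤ × (ℕ × ℕ)) × ℤ, (if |κ.2 - κ'.2| ≤ 7 * K then g * (P κ + Q κ') else 0) =
      g * P κ * (if |κ.2 - κ'.2| ≤ 7 * K then 1 else 0) + g * Q κ' * (if |κ'.2 - κ.2| ≤ 7 * K then 1 else 0) := by
    intro κ κ'
    rw [abs_sub_comm κ'.2 κ.2]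
    split_ifs <;> ring
  have h2 : ∑ κ ∈ MOD_K q n, ∑ κ' ∈ MOD_K q n, (if |κ.2 - κ'.2| ≤ 7 * K then g * (P κ + Q κ') else 0) =
      ∑ κ ∈ MOD_K q n, ∑ κ' ∈ MOD_K q n, g * P κ * (if |κ.2 - κ'.2| ≤ 7 * K then 1 else 0) +
      ∑ κ' ∈ MOD_K q n, ∑ κ ∈ MOD_K q n, g * Q κ' * (if |κ'.2 - κ.2| ≤ 7 * K then 1 else 0) := by
    rw [Finset.sum_comm (s := MOD_K q n) (t := MOD_K q n) (f := fun κ' κ => g * Q κ' * (if |κ'.2 - κ.2| ≤ 7 * K then 1 else 0)),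
      ← Finset.sum_add_distrib]
    refine Finset.sum_congr rfl fun κ _ => ?_
    rw [← Finset.sum_add_distrib]
    exact Finset.sum_congr rfl fun κ' _ => h1 κ κ'
  have h3 : ∀ (F : (ℤ × (ℕ × ℕ)) × ℤ → ℝ), (∀ κ, 0 ≤ F κ) →
      ∑ κ ∈ MOD_K q n, ∑ κ' ∈ MOD_K q n, g * F κ * (if |κ.2 - κ'.2| ≤ 7 * K then 1 else 0) ≤
        g * (45 * (q : ℝ) ^ 2 * K) * ∑ κ ∈ MOD_K q n, F κ := by
    intro F hF
    rw [Finset.mul_sum]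
    refine Finset.sum_le_sum fun κ _ => ?_
    rw [← Finset.mul_sum, Finset.sum_boole]
    calc g * F κ * (#{κ' ∈ MOD_K q n | |κ.2 - κ'.2| ≤ 7 * K} : ℝ) ≤ g * F κ * (45 * (q : ℝ) ^ 2 * K) :=
          mul_le_mul_of_nonneg_left (MOD_count q K n κ.2 hK) (mul_nonneg hg (hF κ))
      _ = _ := by ring
  rw [h2, Finset.sum_add_distrib, mul_add]
  exact add_le_add (h3 P hP) (h3 Q hQ)

theorem MOD_kk_bound (N : ℕ) (h : ℝ) (hh0 : 0 < h) : ∃ n : ℤ, ∀ θ : ℝ, 0 ≤ θ → θ ≤ h → ∀ z ∈ ZD N, |kk h θ z| ≤ n := by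
  obtain ⟨Ym, hYm⟩ : ∃ Ym : ℝ, Ym = ∑ z ∈ ZD N, |yy z| := ⟨_, rfl⟩
  refine ⟨⌈Ym / h⌉ + 3, ?_⟩
  intro θ h0 h1 z hz
  have hy : |yy z| ≤ Ym := by
    rw [hYm]
    exact Finset.single_le_sum (f := fun z => |yy z|) (fun w _ => abs_nonneg _) hz
  have hy1 := abs_le.mp hy
  have ht1 : (yy z - θ) / h ≤ Ym / h := div_le_div_of_nonneg_right (by linarith) hh0.le
  have ht2 : -(Ym / h) - 1 ≤ (yy z - θ) / h := by
    rw [le_div_iff₀ hh0]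
    have : (-(Ym / h) - 1) * h = -Ym - h := by field_simp
    rw [this]
    linarith
  have hc1 : ((⌈(yy z - θ) / h⌉ : ℤ) : ℝ) < (yy z - θ) / h + 1 := Int.ceil_lt_add_one _
  have hc2 : (yy z - θ) / h ≤ ⌈(yy z - θ) / h⌉ := Int.le_ceil _
  have hc3 : Ym / h ≤ ⌈Ym / h⌉ := Int.le_ceil _
  have e1 : ((kk h θ z : ℤ) : ℝ) ≤ ((⌈Ym / h⌉ + 3 : ℤ) : ℝ) := by
    unfold kk
    push_cast
    linarith
  have e2 : ((-(⌈Ym / h⌉ + 3) : ℤ) : ℝ) ≤ ((kk h θ z : ℤ) : ℝ) := by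
    unfold kk
    push_cast
    linarith
  exact abs_le.mpr ⟨by exact_mod_cast e2, by exact_mod_cast e1⟩

theorem MOD (hTEN : TEN_stmt) (hSEP : SEP_stmt) (hOFF : OFF_stmt) (hLIP : LIP_stmt) (hTNQ : TNQ_stmt) (hWND : WND_stmt) (hKRN : KRN_stmt) :
    MOD_stmt := by
  obtain ⟨CL, hCL0, hLIP'⟩ := hLIP
  obtain ⟨CS, hCS0, hSEP'⟩ := hSEP
  refine ⟨1620 * CL * CS, by positivity, ?_⟩
  intro x N A K K₁ E q T M Mβ β Ω f₁ f₂ hx hN hA hAx hK₁ hK hT hxK hf₁ hf₂ hβ hΩ hYH hKE hq hqE hper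
  have hxR : (1 : ℝ) ≤ x := by exact_mod_cast hx
  have hNR : (1 : ℝ) ≤ N := by exact_mod_cast hN
  have hAR : (1 : ℝ) ≤ A := by exact_mod_cast hA
  have hK0 : 1 ≤ K := by omega
  have hKR : (1 : ℝ) ≤ K := by exact_mod_cast hK0
  have hK₁R : (1 : ℝ) ≤ K₁ := by exact_mod_cast hK₁
  have hqR : (1 : ℝ) ≤ q := by exact_mod_cast hq
  have hlog : 0 < Real.log x ^ E := lt_of_lt_of_le (by linarith) hKE
  obtain ⟨h, hhe⟩ : ∃ h : ℝ, h = hh x A K := ⟨_, rfl⟩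
  obtain ⟨ρ, hρe⟩ : ∃ ρ : ℝ, ρ = rr x A K := ⟨_, rfl⟩
  have hh0 : 0 < h := by rw [hhe]; unfold hh; positivity
  have hρ0 : 0 < ρ := by rw [hρe]; unfold rr; positivity
  obtain ⟨D, hD⟩ : ∃ D : ℝ, D = N * h ^ 2 * (x * ρ) ^ 2 / Real.log x ^ E + Mβ ^ 2 * (h * (N * h + √N) * (x / T + 1) ^ 2) := ⟨_, rfl⟩
  have hD0 : 0 ≤ D := by rw [hD]; positivity
  -- the functions
  have hS : ∀ (f : ℤ → ℂ), (∀ l, ‖f l‖ ≤ M) → ∀ (c : ℤ × ℤ) (sg : ℤ) (b : ℕ),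
      MeasureTheory.Integrable (fun y : ℝ => MOD_J (MOD_W N q c sg h y) (bl x K b) β f ρ) ∧
      ∫ y : ℝ, MOD_J (MOD_W N q c sg h y) (bl x K b) β f ρ ≤ CS * M ^ 2 * D := by
    intro f hf c sg b
    have h1 := hSEP' x N A K E q T M Mβ β f hx hN hA hAx hK0 hT hxK hf hβ hYH hKE hq hqE c sg b
    rw [← hhe, ← hρe, ← hD] at h1
    exact h1
  obtain ⟨Aset, hAset⟩ : ∃ Aset : Finset (ℤ × (ℕ × ℕ)), Aset = (({-1, 0, 1} : Finset ℤ) ×ˢ (range q ×ˢ range q)) := ⟨_, rfl⟩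
  obtain ⟨Φ, hΦ⟩ : ∃ Φ : ℝ → ℝ, Φ = fun y => ∑ a ∈ Aset, ∑ b ∈ range K,
      (MOD_J (MOD_W N q ((a.2.1 : ℤ), (a.2.2 : ℤ)) a.1 h y) (bl x K b) β f₁ ρ + MOD_J (MOD_W N q ((a.2.1 : ℤ), (a.2.2 : ℤ)) a.1 h y) (bl x K b) β f₂ ρ) := ⟨_, rfl⟩
  have hΦi : MeasureTheory.Integrable Φ := by
    rw [hΦ]
    refine MeasureTheory.integrable_finset_sum _ fun a _ => ?_
    refine MeasureTheory.integrable_finset_sum _ fun b _ => ?_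
    exact (hS f₁ hf₁ _ _ b).1.add (hS f₂ hf₂ _ _ b).1
  have hΦ0 : ∀ y, 0 ≤ Φ y := by
    intro y
    rw [hΦ]
    exact Finset.sum_nonneg fun a _ => Finset.sum_nonneg fun b _ => add_nonneg (MOD_J_nonneg _ _ _ _ _) (MOD_J_nonneg _ _ _ _ _)
  have hΦint : ∫ y, Φ y ≤ 6 * (q : ℝ) ^ 2 * K * (CS * M ^ 2 * D) := by
    have h1 : ∫ y, Φ y = ∑ a ∈ Aset, ∑ b ∈ range K, ((∫ y, MOD_J (MOD_W N q ((a.2.1 : ℤ), (a.2.2 : ℤ)) a.1 h y) (bl x K b) β f₁ ρ) +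
        ∫ y, MOD_J (MOD_W N q ((a.2.1 : ℤ), (a.2.2 : ℤ)) a.1 h y) (bl x K b) β f₂ ρ) := by
      have hI : ∀ (a : ℤ × (ℕ × ℕ)) (b : ℕ), MeasureTheory.Integrable (fun y : ℝ =>
          MOD_J (MOD_W N q ((a.2.1 : ℤ), (a.2.2 : ℤ)) a.1 h y) (bl x K b) β f₁ ρ +
          MOD_J (MOD_W N q ((a.2.1 : ℤ), (a.2.2 : ℤ)) a.1 h y) (bl x K b) β f₂ ρ) :=
        fun a b => (hS f₁ hf₁ _ _ b).1.add (hS f₂ hf₂ _ _ b).1
      calc ∫ y, Φ y = ∫ y, ∑ a ∈ Aset, ∑ b ∈ range K, (MOD_J (MOD_W N q ((a.2.1 : ℤ), (a.2.2 : ℤ)) a.1 h y) (bl x K b) β f₁ ρ +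
            MOD_J (MOD_W N q ((a.2.1 : ℤ), (a.2.2 : ℤ)) a.1 h y) (bl x K b) β f₂ ρ) := by rw [hΦ]
        _ = ∑ a ∈ Aset, ∫ y, ∑ b ∈ range K, (MOD_J (MOD_W N q ((a.2.1 : ℤ), (a.2.2 : ℤ)) a.1 h y) (bl x K b) β f₁ ρ +
            MOD_J (MOD_W N q ((a.2.1 : ℤ), (a.2.2 : ℤ)) a.1 h y) (bl x K b) β f₂ ρ) :=
            MeasureTheory.integral_finset_sum _ (fun a _ => MeasureTheory.integrable_finset_sum _ fun b _ => hI a b)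
        _ = ∑ a ∈ Aset, ∑ b ∈ range K, ∫ y, (MOD_J (MOD_W N q ((a.2.1 : ℤ), (a.2.2 : ℤ)) a.1 h y) (bl x K b) β f₁ ρ +
            MOD_J (MOD_W N q ((a.2.1 : ℤ), (a.2.2 : ℤ)) a.1 h y) (bl x K b) β f₂ ρ) :=
            Finset.sum_congr rfl fun a _ => MeasureTheory.integral_finset_sum _ (fun b _ => hI a b)
        _ = _ := Finset.sum_congr rfl fun a _ => Finset.sum_congr rfl fun b _ =>
            MeasureTheory.integral_add (hS f₁ hf₁ _ _ b).1 (hS f₂ hf₂ _ _ b).1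
    rw [h1]
    calc _ ≤ ∑ a ∈ Aset, ∑ b ∈ range K, (CS * M ^ 2 * D + CS * M ^ 2 * D) :=
          Finset.sum_le_sum fun a _ => Finset.sum_le_sum fun b _ => add_le_add (hS f₁ hf₁ _ _ b).2 (hS f₂ hf₂ _ _ b).2
      _ = _ := by
          have h2 : #Aset = 3 * (q * q) := by
            rw [hAset, Finset.card_product, Finset.card_product, Finset.card_range]
            rfl
          rw [Finset.sum_const, Finset.sum_const, Finset.card_range, h2, nsmul_eq_mul, nsmul_eq_mul]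
          push_cast
          ring
  -- the offset
  obtain ⟨n, hn⟩ := MOD_kk_bound N h hh0
  obtain ⟨θ, hθ0, hθh, hoff⟩ := hOFF Φ hΦi hΦ0 h hh0 (Icc (-n) n)
  refine ⟨θ, ?_⟩
  have hMM : MM x N A K K₁ θ β Ω f₁ f₂ = ∑ p ∈ PW x N A K K₁ θ, MOD_T x A K θ β Ω f₁ f₂ p := rfl
  have hmaps : ∀ p ∈ PW x N A K K₁ θ, (MOD_key q (hh x A K) θ p.1, MOD_key q (hh x A K) θ p.2) ∈ MOD_K q n ×ˢ MOD_K q n := by
    intro p hp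
    unfold PW at hp
    rw [Finset.mem_filter, Finset.mem_product] at hp
    have hkey : ∀ z ∈ ZD N, MOD_key q (hh x A K) θ z ∈ MOD_K q n := by
      intro z hz
      unfold MOD_key MOD_K
      rw [Finset.mem_product, Finset.mem_product, Finset.mem_product, Finset.mem_range, Finset.mem_range, Finset.mem_Icc]
      have hq0 : (0 : ℤ) < q := by exact_mod_cast hq
      have hm : ∀ a : ℤ, (a % q).toNat < q := by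
        intro a
        have h2 : a % q < q := Int.emod_lt_of_pos _ hq0
        have h1 : 0 ≤ a % q := Int.emod_nonneg _ hq0.ne'
        have h3 : ((a % q).toNat : ℤ) < q := by rw [Int.toNat_of_nonneg h1]; exact h2
        exact_mod_cast h3
      have hkn := abs_le.mp (hn θ hθ0 hθh z hz)
      rw [hhe] at hkn
      have hsgn : (N8 z).sign ∈ ({-1, 0, 1} : Finset ℤ) := by
        rcases Int.sign_trichotomy (N8 z) with h1 | h1 | h1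
        · rw [h1]; decide
        · rw [h1]; decide
        · rw [h1]; decide
      exact ⟨⟨hsgn, hm _, hm _⟩, hkn.1, hkn.2⟩
    rw [Finset.mem_product]
    exact ⟨hkey p.1 hp.1.1, hkey p.2 hp.1.2⟩
  -- the sum over the keys
  obtain ⟨g, hg⟩ : ∃ g : ℝ, g = 6 * K₁ * (x / A) * (2 * CL * K * (1 / (2 * ρ))) := ⟨_, rfl⟩
  have hg0 : 0 ≤ g := by rw [hg]; positivity
  obtain ⟨P, hP⟩ : ∃ P : (ℤ × (ℕ × ℕ)) × ℤ → ℝ, P = fun κ => K * ∑ b ∈ range K, MOD_P x N A K q θ β f₁ κ b := ⟨_, rfl⟩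
  obtain ⟨Q, hQ⟩ : ∃ Q : (ℤ × (ℕ × ℕ)) × ℤ → ℝ, Q = fun κ => K * ∑ b ∈ range K, MOD_P x N A K q θ β f₂ κ b := ⟨_, rfl⟩
  have hP0 : ∀ κ, 0 ≤ P κ := by
    intro κ
    rw [hP]
    exact mul_nonneg (by positivity) (Finset.sum_nonneg fun b _ => MOD_J_nonneg _ _ _ _ _)
  have hQ0 : ∀ κ, 0 ≤ Q κ := by
    intro κ
    rw [hQ]
    exact mul_nonneg (by positivity) (Finset.sum_nonneg fun b _ => MOD_J_nonneg _ _ _ _ _)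
  have hnorm : ‖MM x N A K K₁ θ β Ω f₁ f₂‖ ≤ g * (45 * (q : ℝ) ^ 2 * K) * (∑ κ ∈ MOD_K q n, (P κ + Q κ)) := by
    refine le_trans ?_ (MOD_double q K n hK0 g hg0 P Q hP0 hQ0)
    rw [hMM, ← Finset.sum_fiberwise_of_maps_to hmaps, ← Finset.sum_product']
    refine (norm_sum_le _ _).trans (Finset.sum_le_sum fun κκ hκκ => ?_)
    obtain ⟨κ, κ'⟩ := κκ
    rw [Finset.mem_product] at hκκ
    have hlt : ∀ κ ∈ MOD_K q n, κ.1.2.1 < q ∧ κ.1.2.2 < q := by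
      intro κ hκ
      unfold MOD_K at hκ
      rw [Finset.mem_product, Finset.mem_product, Finset.mem_product, Finset.mem_range, Finset.mem_range] at hκ
      exact ⟨hκ.1.2.1, hκ.1.2.2⟩
    have h1 := MOD_fiber hTEN hTNQ hWND hKRN CL hCL0 hLIP' x N A K K₁ q θ β Ω f₁ f₂ hx hN hA hAx hK₁ hK hq hΩ hper κ κ'
      (hlt κ hκκ.1).1 (hlt κ hκκ.1).2 (hlt κ' hκκ.2).1 (hlt κ' hκκ.2).2
    refine le_trans h1 (le_of_eq ?_)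
    have h2 : ∑ b ∈ range K, ∑ b' ∈ range K, (MOD_P x N A K q θ β f₁ κ b + MOD_P x N A K q θ β f₂ κ' b') = P κ + Q κ' := by
      rw [hP, hQ]
      simp only [Finset.sum_add_distrib, Finset.sum_const, Finset.card_range, nsmul_eq_mul]
      rw [← Finset.mul_sum]
    rw [h2, ← hρe, hg]
    split_ifs
    · ring
    · rfl
  have hsumΦ : ∑ κ ∈ MOD_K q n, (P κ + Q κ) = K * ∑ k ∈ Icc (-n) n, Φ (θ + k * h) := by
    unfold MOD_K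
    rw [Finset.sum_product, Finset.sum_comm, Finset.mul_sum, ← hAset]
    refine Finset.sum_congr rfl fun k _ => ?_
    rw [hΦ, Finset.mul_sum]
    refine Finset.sum_congr rfl fun a _ => ?_
    rw [hP, hQ, Finset.sum_add_distrib, mul_add, hhe, hρe]
    rfl
  -- the numbers
  have h1 : ∑ k ∈ Icc (-n) n, Φ (θ + k * h) ≤ 6 * (q : ℝ) ^ 2 * K * (CS * M ^ 2 * D) / h := by
    rw [le_div_iff₀ hh0, mul_comm]
    exact le_trans hoff hΦint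
  have h2 : ‖MM x N A K K₁ θ β Ω f₁ f₂‖ ≤ g * (45 * (q : ℝ) ^ 2 * K) * (K * (6 * (q : ℝ) ^ 2 * K * (CS * M ^ 2 * D) / h)) := by
    refine le_trans hnorm ?_
    rw [hsumΦ]
    exact mul_le_mul_of_nonneg_left (mul_le_mul_of_nonneg_left h1 (by positivity)) (by positivity)
  refine le_trans h2 ?_
  have h3 : g * (45 * (q : ℝ) ^ 2 * K) * (K * (6 * (q : ℝ) ^ 2 * K * (CS * M ^ 2 * D) / h)) =
      1620 * CL * CS * ((q : ℝ) ^ 4 * K ^ 6 * K₁) * M ^ 2 * (((x : ℝ) / A) ^ 4 * D) := by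
    rw [hg, hhe, hρe]
    unfold hh rr
    field_simp
    ring
  rw [h3]
  refine mul_le_mul_of_nonneg_left ?_ (by positivity)
  have h4 : ((x : ℝ) / A) ^ 4 * D = N * (A : ℝ) ^ 2 / Real.log x ^ E / K ^ 4 +
      Mβ ^ 2 * (((x : ℝ) / A) ^ 4 * (h * (N * h + √N) * (x / T + 1) ^ 2)) := by
    have h5 : ((x : ℝ) / A) ^ 4 * (N * h ^ 2 * (x * ρ) ^ 2 / Real.log x ^ E) = N * (A : ℝ) ^ 2 / Real.log x ^ E / K ^ 4 := by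
      rw [hhe, hρe]
      unfold hh rr
      field_simp
    rw [hD, mul_add, h5]
    ring
  rw [h4, ← hhe]
  have h6 : N * (A : ℝ) ^ 2 / Real.log x ^ E / K ^ 4 ≤ N * (A : ℝ) ^ 2 / Real.log x ^ E :=
    div_le_self (by positivity) (one_le_pow₀ hKR)
  linarith

end Pool.Agent.EU
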